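import Pool.Agent.W550.LG2.Stm
/-! Laugwitz' problem, Part III: symmetries of the derivatives of `C` (S_SYM). -/
set_option autoImplicit false
set_option maxSynthPendingDepth 3
open Topology Filter Set
open scoped ContDiff InnerProductSpace

namespace Pool.Agent.W961.LG2
open Pool.Agent.W617.LG Pool.Agent.W550.LG2

section
variable {V W X : Type*} [NormedAddCommGroup V] [NormedSpace ℝ V] [NormedAddCommGroup W]
  [NormedSpace ℝ W] [NormedAddCommGroup X] [NormedSpace ℝ X]

lemma ev_diff (T : V → X →L[ℝ] W) (x : V) (hT : DifferentiableAt ℝ T x) (v : X) :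
    DifferentiableAt ℝ (fun y => T y v) x :=
  ((ContinuousLinearMap.apply ℝ W v).differentiableAt).comp x hT

lemma ev_fderiv (T : V → X →L[ℝ] W) (x : V) (hT : DifferentiableAt ℝ T x) (v : X) (u : V) :
    fderiv ℝ (fun y => T y v) x u = fderiv ℝ T x u v := by
  have h := ((ContinuousLinearMap.apply ℝ W v).hasFDerivAt (x := T x)).comp x hT.hasFDerivAt
  have e : fderiv ℝ (fun y => T y v) x
      = (ContinuousLinearMap.apply ℝ W v).comp (fderiv ℝ T x) := h.fderiv
  rw [e]
  rfl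

lemma ev2_fderiv (T : V → V →L[ℝ] V →L[ℝ] W) (x : V) (hT : DifferentiableAt ℝ T x) (u v w : V) :
    fderiv ℝ (fun y => T y v w) x u = fderiv ℝ T x u v w := by
  rw [ev_fderiv (fun y => T y v) x (ev_diff T x hT v) w u, ev_fderiv T x hT v u]

lemma ev3_fderiv (T : V → V →L[ℝ] V →L[ℝ] V →L[ℝ] W) (x : V) (hT : DifferentiableAt ℝ T x)
    (u v w z : V) :
    fderiv ℝ (fun y => T y v w z) x u = fderiv ℝ T x u v w z := by
  rw [ev_fderiv (fun y => T y v w) x (ev_diff _ x (ev_diff T x hT v) w) z u,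
    ev2_fderiv T x hT u v w]

/-- symmetry in the first two arguments of the second derivative -/
lemma snd_symm (C : V → V →L[ℝ] V →L[ℝ] W) (x : V) (hC : ContDiffAt ℝ ∞ C x) (u v w z : V) :
    fderiv ℝ (fun y => fderiv ℝ C y v w z) x u = fderiv ℝ (fun y => fderiv ℝ C y u w z) x v := by
  have hD : DifferentiableAt ℝ (fderiv ℝ C) x :=
    (hC.fderiv_right (m := 1) (WithTop.coe_le_coe.2 le_top)).differentiableAt (by norm_num)
  rw [ev3_fderiv _ x hD, ev3_fderiv _ x hD]
  have hs : IsSymmSndFDerivAt ℝ C x :=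
    hC.isSymmSndFDerivAt (by rw [minSmoothness_of_isRCLikeNormedField]; exact WithTop.coe_le_coe.2 le_top)
  rw [hs u v]

/-- differentiating a symmetry -/
lemma fst_symm (C : V → V →L[ℝ] V →L[ℝ] W) (x : V) (hC : DifferentiableAt ℝ C x) (v w : V)
    (h : ∀ᶠ y in 𝓝 x, C y v w = C y w v) (u : V) :
    fderiv ℝ C x u v w = fderiv ℝ C x u w v := by
  rw [← ev2_fderiv C x hC u v w, ← ev2_fderiv C x hC u w v]
  rw [Filter.EventuallyEq.fderiv_eq (f := fun y => C y w v) h]

end

theorem sym : S_SYM := by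
  intro q C τ hL x hx u v w z
  have hne : ∀ y : E q, y ≠ 0 → ∀ᶠ y' in 𝓝 y, y' ≠ 0 := fun y hy => isOpen_ne.mem_nhds hy
  have hdiff : ∀ y : E q, y ≠ 0 → DifferentiableAt ℝ C y := fun y hy =>
    (hL.smooth y hy).differentiableAt (by norm_num)
  have h2 : ∀ y : E q, y ≠ 0 → ∀ u v w : E q, fderiv ℝ C y u v w = fderiv ℝ C y u w v := by
    intro y hy u v w
    exact fst_symm C y (hdiff y hy) v w ((hne y hy).mono fun y' hy' => hL.comm12 y' hy' v w) u
  have h3 : ∀ y : E q, y ≠ 0 → ∀ u v w z : E q,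
      ⟪fderiv ℝ C y u v w, z⟫_ℝ = ⟪fderiv ℝ C y u v z, w⟫_ℝ := by
    intro y hy u v w z
    have e : ∀ w z : E q, fderiv ℝ (fun y => ⟪C y v w, z⟫_ℝ) y u = ⟪fderiv ℝ C y u v w, z⟫_ℝ := by
      intro w z
      have h1 : DifferentiableAt ℝ (fun y => C y v w) y :=
        ev_diff _ y (ev_diff C y (hdiff y hy) v) w
      rw [fderiv_inner_apply ℝ h1 (differentiableAt_const z), ev2_fderiv C y (hdiff y hy) u v w]
      simp
    rw [← e w z, ← e z w]
    rw [Filter.EventuallyEq.fderiv_eq (f := fun y => ⟪C y v z, w⟫_ℝ)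
      ((hne y hy).mono fun y' hy' => hL.symm y' hy' v w z)]
  refine ⟨?_, h2 x hx u v w, h3 x hx u v w z, ?_, ?_, ?_⟩
  · rw [hL.cod x hx u v]
  · exact snd_symm C x (hL.smooth x hx) u v w z
  · unfold D2
    rw [Filter.EventuallyEq.fderiv_eq (f := fun y => fderiv ℝ C y w v z)
      ((hne x hx).mono fun y' hy' => by
        show fderiv ℝ C y' v w z = fderiv ℝ C y' w v z
        rw [hL.cod y' hy' v w])]
  · unfold D2
    rw [Filter.EventuallyEq.fderiv_eq (f := fun y => fderiv ℝ C y v z w)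
      ((hne x hx).mono fun y' hy' => h2 y' hy' v w z)]

end Pool.Agent.W961.LG2
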